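import Mathlib

set_option autoImplicit false

open MonoidAlgebra

namespace Pool.Agent.Results.MP_45e6b1_al.NotSelfDual

universe u

/-!
Conventions.  The problem lets `𝔖_n` act on `{1,…,n}` on the right, so its product is
`i(στ) = (iσ)τ`, which is the product *opposite* to that of Lean's `Equiv.Perm (Fin n)`, where
`(σ * τ) i = σ (τ i)`.  Hence the problem's *right* ideals of `F𝔖_n` and right `F𝔖_n`-modules are
exactly the *left* ideals of `MonoidAlgebra F (Equiv.Perm (Fin n))` and its left modules.  The points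
`1,…,n` (as positions and as values) are coded by `0,…,n-1 : Fin n`.
-/

/-- The group algebra `F[G]`. -/
def GA (F : Type u) [Field F] (G : Type) [Group G] : Type u := MonoidAlgebra F G

noncomputable instance instRingGA (F : Type u) [Field F] (G : Type) [Group G] : Ring (GA F G) :=
  inferInstanceAs (Ring (MonoidAlgebra F G))

/-- The element `t·g` of `F[G]`. -/
noncomputable def elt {F : Type u} [Field F] {G : Type} [Group G] (g : G) (t : F) : GA F G :=
  MonoidAlgebra.single g t

/-- The action of `g ∈ G` on an `F[G]`-module. -/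
noncomputable def act (F : Type u) [Field F] {G : Type} [Group G] {M : Type u} [AddCommGroup M]
    [Module (GA F G) M] (g : G) (x : M) : M := elt (F := F) g 1 • x

/-- `S(q) = {q₁, q₁+q₂, …, q₁+…+q_{k-1}}`, the proper partial sums of the composition `q`. -/
def partialSums {n : ℕ} (q : Composition n) : Set ℕ :=
  {s | ∃ i : ℕ, 1 ≤ i ∧ i < q.length ∧ s = q.sizeUpTo i}

/-- `Des(σ) = {i ∈ [1,n-1] : iσ > (i+1)σ}`; the point `i` is coded by `i - 1 : Fin n` and the point
`i + 1` by `i : Fin n`. -/
def Des {n : ℕ} (σ : Equiv.Perm (Fin n)) : Set ℕ :=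
  {i | ∃ (_ : 1 ≤ i) (h : i < n), σ ⟨i, h⟩ < σ ⟨i - 1, lt_of_le_of_lt (Nat.sub_le i 1) h⟩}

open Classical in
/-- The Solomon descent element `Ξ^q`: the sum of all `σ` with `Des(σ) ⊆ S(q)`. -/
noncomputable def Xi (F : Type u) [Field F] {n : ℕ} (q : Composition n) :
    GA F (Equiv.Perm (Fin n)) :=
  ∑ σ : Equiv.Perm (Fin n), if Des σ ⊆ partialSums q then elt σ 1 else 0

/-- The right ideal generated by `Ξ^q` (a left ideal for Lean's product). -/
noncomputable def idealX (F : Type u) [Field F] {n : ℕ} (q : Composition n) :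
    Ideal (GA F (Equiv.Perm (Fin n))) := Ideal.span {Xi F q}

/-- `X^q_F`, the right ideal generated by `Ξ^q`, as a module. -/
def X (F : Type u) [Field F] {n : ℕ} (q : Composition n) : Type u := ↥(idealX F q)

noncomputable instance instX (F : Type u) [Field F] {n : ℕ} (q : Composition n) :
    AddCommGroup (X F q) := inferInstanceAs (AddCommGroup ↥(idealX F q))

noncomputable instance instModX (F : Type u) [Field F] {n : ℕ} (q : Composition n) :
    Module (GA F (Equiv.Perm (Fin n))) (X F q) :=
  inferInstanceAs (Module (GA F (Equiv.Perm (Fin n))) ↥(idealX F q))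

/-- An invariant bilinear form `M × M → F`, i.e. an `F[G]`-homomorphism `M → M^* = Hom_F(M, F)`,
`x ↦ B x`, where `(g·f)(y) = f(g⁻¹y)` for `f ∈ M^*`; scalars `t ∈ F` act as `t·1 ∈ F[G]`. -/
structure HomToDual (F : Type u) [Field F] (G : Type) [Group G] (M : Type u) [AddCommGroup M]
    [Module (GA F G) M] where
  /-- the form -/
  B : M → M → F
  add_left : ∀ x x' y, B (x + x') y = B x y + B x' y
  add_right : ∀ x y y', B x (y + y') = B x y + B x y'
  smul_left : ∀ (t : F) (x y : M), B (elt (1 : G) t • x) y = t * B x y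
  smul_right : ∀ (t : F) (x y : M), B x (elt (1 : G) t • y) = t * B x y
  equivariant : ∀ (g : G) (x y : M), B (act F g x) y = B x (act F g⁻¹ y)

/-- `M ≅ M^*` (for `M` of finite dimension over `F` an injective homomorphism `M → M^*` is an
isomorphism; so this is implied by `M ≅ M^*` for every `M`, and equivalent to it when
`dim_F M < ∞`). -/
def IsSelfDual (F : Type u) [Field F] (G : Type) [Group G] (M : Type u) [AddCommGroup M]
    [Module (GA F G) M] : Prop :=
  ∃ T : HomToDual F G M, ∀ x : M, (∀ y, T.B x y = 0) → x = 0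

/-- The permutation module `F[Ω]`. -/
def PermMod (F : Type u) [Field F] (G : Type) [Group G] (Ω : Type) [MulAction G Ω] : Type u :=
  (Representation.ofMulAction F G Ω).asModule

noncomputable instance instPerm (F : Type u) [Field F] (G : Type) [Group G] (Ω : Type)
    [MulAction G Ω] : AddCommGroup (PermMod F G Ω) :=
  inferInstanceAs (AddCommGroup (Representation.ofMulAction F G Ω).asModule)

noncomputable instance instModPerm (F : Type u) [Field F] (G : Type) [Group G] (Ω : Type)
    [MulAction G Ω] : Module (GA F G) (PermMod F G Ω) :=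
  inferInstanceAs (Module (MonoidAlgebra F G) (Representation.ofMulAction F G Ω).asModule)

/-- The basis element `ω ∈ Ω` of `F[Ω]`. -/
noncomputable def pt (F : Type u) [Field F] (G : Type) [Group G] {Ω : Type} [MulAction G Ω]
    (ω : Ω) : PermMod F G Ω :=
  (Representation.ofMulAction F G Ω).asModuleEquiv.symm (MonoidAlgebra.single ω 1)

/-- `Y` is isomorphic to a direct summand of `M`, via `i : Y → M` and `p : M → Y`. -/
def IsSplit {R : Type u} [Ring R] {Y M : Type u} [AddCommGroup Y] [AddCommGroup M] [Module R Y]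
    [Module R M] (i : Y →ₗ[R] M) (p : M →ₗ[R] Y) : Prop := ∀ y, p (i y) = y

/-- `M` is isomorphic to a direct summand of a (finite) permutation module. -/
def IsTrivialSource (F : Type u) [Field F] (G : Type) [Group G] (M : Type u) [AddCommGroup M]
    [Module (GA F G) M] : Prop :=
  ∃ (Ω : Type) (_ : Finite Ω) (_ : MulAction G Ω) (i : M →ₗ[GA F G] PermMod F G Ω)
    (p : PermMod F G Ω →ₗ[GA F G] M), IsSplit i p

/-- The Young subgroup `𝔖_μ` of a composition `μ`: the permutations preserving each block. -/
def youngSubgroup {n : ℕ} (μ : Composition n) : Subgroup (Equiv.Perm (Fin n)) where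
  carrier := {σ | ∀ i, μ.index (σ i) = μ.index i}
  mul_mem' := fun {σ τ} hσ hτ i => by
    rw [Equiv.Perm.mul_apply, hσ, hτ]
  one_mem' := fun i => rfl
  inv_mem' := fun {σ} hσ i => by
    have := hσ (σ⁻¹ i)
    have h2 : σ (σ⁻¹ i) = i := σ.apply_symm_apply i
    rw [h2] at this
    exact this.symm

/-- `M^μ = Ind_{𝔖_μ}^{𝔖_n} F`, the permutation module on the cosets of the Young subgroup. -/
abbrev YoungPerm (F : Type u) [Field F] {n : ℕ} (μ : Composition n) : Type u :=
  PermMod F (Equiv.Perm (Fin n)) (Equiv.Perm (Fin n) ⧸ youngSubgroup μ)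

/-- The column (position inside its block) of a point. -/
def col {n : ℕ} (μ : Composition n) (i : Fin n) : ℕ := (μ.invEmbedding i : ℕ)

open Classical in
/-- The signed sum of the column stabiliser of the tableau whose rows are the blocks of `μ`. -/
noncomputable def colSum (F : Type u) [Field F] {n : ℕ} (μ : Composition n) :
    GA F (Equiv.Perm (Fin n)) :=
  ∑ π : Equiv.Perm (Fin n), if ∀ i, col μ (π i) = col μ i then elt π ((Equiv.Perm.sign π : ℤ) : F)
    else 0

/-- The Specht module `S^μ ⊆ M^μ`, generated by the polytabloid. -/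
noncomputable def specht (F : Type u) [Field F] {n : ℕ} (μ : Composition n) :
    Submodule (GA F (Equiv.Perm (Fin n))) (YoungPerm F μ) :=
  Submodule.span _ {colSum F μ • pt F (Equiv.Perm (Fin n)) (QuotientGroup.mk 1)}

/-- Indecomposable modules. -/
def IsIndec (R : Type u) [Ring R] (M : Type u) [AddCommGroup M] [Module R M] : Prop :=
  Nontrivial M ∧ ∀ U W : Submodule R M, IsCompl U W → U = ⊥ ∨ W = ⊥

/-- `Y` is the Young module `Y^μ` (for a partition, i.e. a weakly decreasing composition, `μ`): it is
isomorphic to an indecomposable direct summand of `M^μ` that contains the Specht module `S^μ`. -/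
def IsYoung (F : Type u) [Field F] {n : ℕ} (μ : Composition n) (Y : Type u) [AddCommGroup Y]
    [Module (GA F (Equiv.Perm (Fin n))) Y] : Prop :=
  μ.blocks.Pairwise (· ≥ ·) ∧ IsIndec (GA F (Equiv.Perm (Fin n))) Y ∧
  ∃ (i : Y →ₗ[GA F (Equiv.Perm (Fin n))] YoungPerm F μ)
    (p : YoungPerm F μ →ₗ[GA F (Equiv.Perm (Fin n))] Y), IsSplit i p ∧
    ∀ z ∈ specht F μ, ∃ y, i y = z

/-- `M` is isomorphic to a finite direct sum of Young modules. -/
def IsSumOfYoung (F : Type u) [Field F] (n : ℕ) (M : Type u) [AddCommGroup M]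
    [Module (GA F (Equiv.Perm (Fin n))) M] : Prop :=
  ∃ (k : ℕ) (μ : Fin k → Composition n) (Y : Fin k → Type u) (_ : ∀ i, AddCommGroup (Y i))
    (_ : ∀ i, Module (GA F (Equiv.Perm (Fin n))) (Y i)),
    (∀ i, IsYoung F (μ i) (Y i)) ∧
    Nonempty (M ≃ₗ[GA F (Equiv.Perm (Fin n))] (∀ i, Y i))

/-- The composition `(2,1,1)` of `4`. -/
def q211 : Composition 4 := ⟨[2, 1, 1], by decide, by decide⟩

/-! ### A local property of permutation modules in characteristic 2 -/

section local_property

variable {F : Type u} [Field F] {G : Type} [Group G]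

/-- every `m` killed by `(1+a)(1+b)` is a sum of elements fixed by `a`, `b`, `ab` respectively. -/
def HasQ (F : Type u) [Field F] {G : Type} [Group G] (a b : G) (M : Type u) [AddCommGroup M]
    [Module (GA F G) M] : Prop :=
  ∀ m : M, (m + act F a m + act F b m + act F (a * b) m = 0) →
    ∃ k₁ k₂ k₃ : M, m = k₁ + k₂ + k₃ ∧ act F a k₁ = k₁ ∧ act F b k₂ = k₂ ∧
      act F (a * b) k₃ = k₃

lemma act_map {M N : Type u} [AddCommGroup M] [AddCommGroup N] [Module (GA F G) M]
    [Module (GA F G) N] (f : M →ₗ[GA F G] N) (g : G) (x : M) : f (act F g x) = act F g (f x) :=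
  map_smul f _ _

lemma HasQ.retract {a b : G} {M N : Type u} [AddCommGroup M] [AddCommGroup N]
    [Module (GA F G) M] [Module (GA F G) N] (h : HasQ F a b N)
    (i : M →ₗ[GA F G] N) (p : N →ₗ[GA F G] M)
    (hpi : ∀ m, p (i m) = m) : HasQ F a b M := by
  intro m hm
  obtain ⟨k₁, k₂, k₃, hk, h1, h2, h3⟩ := h (i m) (by
    rw [← act_map, ← act_map, ← act_map, ← map_add, ← map_add, ← map_add, hm, map_zero])
  refine ⟨p k₁, p k₂, p k₃, ?_, ?_, ?_, ?_⟩
  · rw [← map_add, ← map_add, ← hk, hpi]
  · rw [← act_map, h1]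
  · rw [← act_map, h2]
  · rw [← act_map, h3]

lemma HasQ.pi {a b : G} {k : ℕ} {Y : Fin k → Type u} [∀ i, AddCommGroup (Y i)]
    [∀ i, Module (GA F G) (Y i)] (h : ∀ i, HasQ F a b (Y i)) :
    HasQ F a b (∀ i, Y i) := by
  intro m hm
  have hm' : ∀ i, ∃ k₁ k₂ k₃ : Y i, m i = k₁ + k₂ + k₃ ∧ act F a k₁ = k₁ ∧
      act F b k₂ = k₂ ∧ act F (a * b) k₃ = k₃ := fun i =>
    h i (m i) (congrFun hm i)
  choose k₁ k₂ k₃ hk h1 h2 h3 using hm'
  exact ⟨k₁, k₂, k₃, funext hk, funext h1, funext h2, funext h3⟩

/-- The statement about functions on a set with commuting involutions. -/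
lemma fun_decomp [CharP F 2] {Ω : Type} [Finite Ω] (a b : Ω → Ω) (haa : ∀ x, a (a x) = x)
    (hbb : ∀ x, b (b x) = x) (hab : ∀ x, a (b x) = b (a x)) (f : Ω → F)
    (hf : ∀ x, f x + f (a x) + f (b x) + f (a (b x)) = 0) :
    ∃ k₁ k₂ k₃ : Ω → F, (∀ x, f x = k₁ x + k₂ x + k₃ x) ∧ (∀ x, k₁ (a x) = k₁ x) ∧
      (∀ x, k₂ (b x) = k₂ x) ∧ (∀ x, k₃ (a (b x)) = k₃ x) := by
  classical
  obtain ⟨N, ⟨e⟩⟩ := Finite.exists_equiv_fin Ω
  have h2 : ∀ z : F, z + z = 0 := fun z => CharTwo.add_self_eq_zero z
  let m : Ω → Fin N := fun x => min (e x) (e (b x))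
  have hmb : ∀ x, m (b x) = m x := fun x => by
    simp only [m, hbb, min_comm]
  have hmab : ∀ x, m (a (b x)) = m (a x) := fun x => by rw [hab, hmb]
  have hne : ∀ x, a x ≠ x → a (b x) ≠ x → m x ≠ m (a x) := by
    intro x h1 h3 heq
    simp only [m] at heq
    rcases min_choice (e x) (e (b x)) with h | h <;>
      rcases min_choice (e (a x)) (e (b (a x))) with h' | h' <;>
      rw [h, h'] at heq <;> have heq' := e.injective heq
    · exact h1 heq'.symm
    · exact h3 (by rw [hab]; exact heq'.symm)
    · apply h3; rw [hab, ← heq', hbb]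
    · apply h1
      have := congrArg b heq'
      rw [hbb, hbb] at this
      exact this.symm
  let h : Ω → F := fun x => f x + f (a x)
  have hha : ∀ x, h (a x) = h x := fun x => by simp only [h, haa, add_comm]
  have hhb : ∀ x, h (b x) = h x := fun x => by
    simp only [h]
    have := hf x
    have h4 : f (b x) + f (a (b x)) = -(f x + f (a x)) := by linear_combination this
    rw [h4, CharTwo.neg_eq]
  let k₁ : Ω → F := fun x => if a x = x then f x else if b x = x then 0 else
    if a (b x) = x then 0 else f x + (if m x < m (a x) then h x else 0)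
  let k₂ : Ω → F := fun x => if a x = x then 0 else if b x = x then f x else
    if a (b x) = x then 0 else (if m x < m (a x) then h x else 0)
  let k₃ : Ω → F := fun x => if a x = x then 0 else if b x = x then 0 else
    if a (b x) = x then f x else 0
  refine ⟨k₁, k₂, k₃, ?_, ?_, ?_, ?_⟩
  · intro x
    simp only [k₁, k₂, k₃]
    split_ifs <;> simp [add_assoc, h2]
  · intro x
    by_cases hA : a x = x
    · rw [hA]
    have hA' : a (a x) ≠ a x := fun hh => hA (by rw [haa] at hh; exact hh.symm)
    by_cases hB : b x = x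
    · have hB' : b (a x) = a x := by rw [← hab, hB]
      simp only [k₁, if_neg hA, if_neg hA', if_pos hB, if_pos hB']
    have hB' : b (a x) ≠ a x := fun hh => hB (by
      rw [← hab] at hh
      have := congrArg a hh
      rwa [haa, haa] at this)
    by_cases hC : a (b x) = x
    · have hC' : a (b (a x)) = a x := by rw [← hab, hC]
      simp only [k₁, if_neg hA, if_neg hA', if_neg hB, if_neg hB', if_pos hC, if_pos hC']
    have hC' : a (b (a x)) ≠ a x := fun hh => hC (by
      rw [← hab, haa] at hh
      rw [hh, haa])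
    simp only [k₁, if_neg hA, if_neg hA', if_neg hB, if_neg hB', if_neg hC, if_neg hC', haa, hha]
    have hm := hne x hA hC
    rcases lt_or_gt_of_ne hm with hlt | hlt
    · rw [if_pos hlt, if_neg (not_lt_of_gt hlt)]
      simp only [h]
      linear_combination -(h2 (f x))
    · rw [if_neg (not_lt_of_gt hlt), if_pos hlt]
      simp only [h]
      linear_combination (h2 (f (a x)))
  · intro x
    by_cases hA : a x = x
    · have hA' : a (b x) = b x := by rw [hab, hA]
      simp only [k₂, if_pos hA, if_pos hA']
    have hA' : a (b x) ≠ b x := fun hh => hA (by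
      rw [hab] at hh
      have := congrArg b hh
      rwa [hbb, hbb] at this)
    by_cases hB : b x = x
    · rw [hB]
    have hB' : b (b x) ≠ b x := fun hh => hB (by rw [hbb] at hh; exact hh.symm)
    by_cases hC : a (b x) = x
    · have hC' : a (b (b x)) = b x := by
        rw [hbb, ← hC, haa, hC]
      simp only [k₂, if_neg hA, if_neg hA', if_neg hB, if_neg hB', if_pos hC, if_pos hC']
    have hC' : a (b (b x)) ≠ b x := fun hh => hC (by
      rw [hbb] at hh
      rw [← hh, haa])
    simp only [k₂, if_neg hA, if_neg hA', if_neg hB, if_neg hB', if_neg hC, if_neg hC', hmb, hmab,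
      hhb]
  · intro x
    by_cases hC : a (b x) = x
    · rw [hC]
    have hC' : a (b (a (b x))) ≠ a (b x) := fun hh => hC (by
      rw [hab (a (b x)), haa, hbb] at hh
      exact hh.symm)
    simp only [k₃, if_neg hC, if_neg hC']
    simp

/-- Coordinates of an element of a permutation module. -/
noncomputable def co {Ω : Type} [MulAction G Ω] (m : PermMod F G Ω) (x : Ω) : F :=
  ((Representation.ofMulAction F G Ω).asModuleEquiv m).coeff x

lemma co_add {Ω : Type} [MulAction G Ω] (m m' : PermMod F G Ω) (x : Ω) :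
    co (m + m') x = co m x + co m' x := by
  unfold co
  have : (Representation.ofMulAction F G Ω).asModuleEquiv (m + m') =
    (Representation.ofMulAction F G Ω).asModuleEquiv m +
    (Representation.ofMulAction F G Ω).asModuleEquiv m' := map_add _ _ _
  rw [this]
  rfl

lemma co_zero {Ω : Type} [MulAction G Ω] (x : Ω) : co (0 : PermMod F G Ω) x = 0 := by
  unfold co
  have : (Representation.ofMulAction F G Ω).asModuleEquiv (0 : PermMod F G Ω) = 0 := map_zero _
  rw [this]
  rfl

lemma co_act {Ω : Type} [MulAction G Ω] (g : G) (m : PermMod F G Ω) (x : Ω) :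
    co (act F g m) x = co m (g⁻¹ • x) := by
  have key : ∀ (w : (Representation.ofMulAction F G Ω).asModule),
      ((Representation.ofMulAction F G Ω).asModuleEquiv
        ((MonoidAlgebra.single g (1 : F) : MonoidAlgebra F G) • w)).coeff x =
      ((Representation.ofMulAction F G Ω).asModuleEquiv w).coeff (g⁻¹ • x) := by
    intro w
    rw [Representation.asModuleEquiv_map_smul, Representation.asAlgebraHom_single, one_smul,
      Representation.coeff_ofMulAction]
  exact key m

lemma co_ext {Ω : Type} [MulAction G Ω] {m m' : PermMod F G Ω} (h : ∀ x, co m x = co m' x) :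
    m = m' := by
  apply (Representation.ofMulAction F G Ω).asModuleEquiv.injective
  apply MonoidAlgebra.coeff_injective
  exact Finsupp.ext h

lemma exists_co {Ω : Type} [Finite Ω] [MulAction G Ω] (k : Ω → F) :
    ∃ m : PermMod F G Ω, ∀ x, co m x = k x := by
  refine ⟨(Representation.ofMulAction F G Ω).asModuleEquiv.symm
    (ofCoeff (Finsupp.equivFunOnFinite.symm k)), fun x => ?_⟩
  have : (Representation.ofMulAction F G Ω).asModuleEquiv
      ((Representation.ofMulAction F G Ω).asModuleEquiv.symm
    (ofCoeff (Finsupp.equivFunOnFinite.symm k))) = ofCoeff (Finsupp.equivFunOnFinite.symm k) :=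
    LinearEquiv.apply_symm_apply _ _
  unfold co
  rw [this]
  rfl

lemma HasQ.perm [CharP F 2] {Ω : Type} [Finite Ω] [MulAction G Ω] {a b : G} (haa : a * a = 1)
    (hbb : b * b = 1) (hab : a * b = b * a) : HasQ F a b (PermMod F G Ω) := by
  intro m hm
  have hainv : a⁻¹ = a := inv_eq_of_mul_eq_one_right haa
  have hbinv : b⁻¹ = b := inv_eq_of_mul_eq_one_right hbb
  have habinv : (a * b)⁻¹ = a * b := by rw [mul_inv_rev, hainv, hbinv, hab]
  have hf : ∀ x, co m x + co m (a • x) + co m (b • x) + co m (a • (b • x)) = 0 := by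
    intro x
    have h0 := congrArg (fun w => co w x) hm
    simp only [co_add, co_act, hainv, hbinv, habinv, co_zero, mul_smul] at h0
    exact h0
  obtain ⟨k₁, k₂, k₃, hk, h1, h2, h3⟩ := fun_decomp (fun x : Ω => a • x) (fun x => b • x)
    (fun x => by rw [smul_smul, haa, one_smul]) (fun x => by rw [smul_smul, hbb, one_smul])
    (fun x => by rw [smul_smul, hab, mul_smul]) (co m) hf
  obtain ⟨l₁, hl₁⟩ := exists_co (F := F) (G := G) k₁
  obtain ⟨l₂, hl₂⟩ := exists_co (F := F) (G := G) k₂
  obtain ⟨l₃, hl₃⟩ := exists_co (F := F) (G := G) k₃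
  refine ⟨l₁, l₂, l₃, ?_, ?_, ?_, ?_⟩
  · apply co_ext
    intro x
    rw [co_add, co_add, hl₁, hl₂, hl₃]
    exact hk x
  · apply co_ext
    intro x
    rw [co_act, hl₁, hl₁, hainv]
    exact h1 x
  · apply co_ext
    intro x
    rw [co_act, hl₂, hl₂, hbinv]
    exact h2 x
  · apply co_ext
    intro x
    rw [co_act, hl₃, hl₃, habinv, mul_smul]
    exact h3 x

end local_property

/-! ### The module `X^{(2,1,1)}` in characteristic `2` -/

section example_module

open Equiv

/-- parity of the indicator of `σ 0 < σ 1`. -/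
def chi (σ : Perm (Fin 4)) : ZMod 2 := if σ 0 < σ 1 then 1 else 0

lemma partialSums_q211 : partialSums q211 = {2, 3} := by
  ext s
  simp only [partialSums, Set.mem_ofPred_eq, Set.mem_insert_iff, Set.mem_singleton_iff]
  constructor
  · rintro ⟨i, h1, h2, rfl⟩
    have hl : q211.length = 3 := rfl
    rw [hl] at h2
    interval_cases i
    · left; rfl
    · right; rfl
  · rintro (rfl | rfl)
    · exact ⟨1, le_refl _, by decide, rfl⟩
    · exact ⟨2, by decide, by decide, rfl⟩

lemma des_iff (σ : Perm (Fin 4)) : Des σ ⊆ partialSums q211 ↔ σ 0 < σ 1 := by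
  rw [partialSums_q211]
  constructor
  · intro h
    by_contra hlt
    have hne : σ 1 ≠ σ 0 := fun hh => by simpa using σ.injective hh
    have hmem : (1 : ℕ) ∈ Des σ := ⟨le_refl _, by decide, lt_of_le_of_ne (not_lt.mp hlt) hne⟩
    have := h hmem
    simp at this
  · intro h i hi
    obtain ⟨h1, h2, h3⟩ := hi
    interval_cases i
    · exact absurd h3 (not_lt_of_gt h)
    · simp
    · simp

variable (F : Type u) [Field F] [CharP F 2]

/-- reduction modulo `2`. -/
noncomputable def red : ZMod 2 →+* F := ZMod.castHom (dvd_refl 2) F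

/-- coefficient of an element of the group algebra -/
def cf {G : Type} [Group G] {F : Type u} [Field F] (x : GA F G) (g : G) : F :=
  MonoidAlgebra.coeff (x : MonoidAlgebra F G) g

omit [CharP F 2] in
variable {F} in
lemma cf_add {G : Type} [Group G] (x y : GA F G) (g : G) : cf (x + y) g = cf x g + cf y g := rfl

omit [CharP F 2] in
variable {F} in
lemma cf_zero {G : Type} [Group G] (g : G) : cf (0 : GA F G) g = 0 := rfl

omit [CharP F 2] in
variable {F} in
lemma cf_sum {G : Type} [Group G] {ι : Type} (s : Finset ι) (f : ι → GA F G) (g : G) :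
    cf (∑ i ∈ s, f i) g = ∑ i ∈ s, cf (f i) g := by
  classical
  induction s using Finset.induction_on with
  | empty => simp [cf_zero]
  | insert a s ha ih => rw [Finset.sum_insert ha, Finset.sum_insert ha, cf_add, ih]

omit [CharP F 2] in
variable {F} in
lemma cf_elt {G : Type} [Group G] [DecidableEq G] (h g : G) (t : F) :
    cf (elt h t) g = if h = g then t else 0 := by
  change (MonoidAlgebra.single h t).coeff g = _
  rw [MonoidAlgebra.coeff_single, Finsupp.single_apply]

omit [CharP F 2] in
variable {F} in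
lemma cf_elt_mul {G : Type} [Group G] (h g : G) (t : F) (x : GA F G) :
    cf (elt h t * x) g = t * cf x (h⁻¹ * g) := by
  have key : ∀ y : MonoidAlgebra F G, (MonoidAlgebra.single h t * y).coeff g =
      t * y.coeff (h⁻¹ * g) := fun y => MonoidAlgebra.coeff_single_mul_apply _ _ _ _
  exact key x

omit [CharP F 2] in
variable {F} in
lemma cf_ext {G : Type} [Group G] {x y : GA F G} (h : ∀ g, cf x g = cf y g) : x = y :=
  MonoidAlgebra.coeff_injective (Finsupp.ext h)

omit [CharP F 2] in
lemma coeff_Xi_aux (σ : Perm (Fin 4)) :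
    cf (Xi F q211) σ = if σ 0 < σ 1 then 1 else 0 := by
  classical
  unfold Xi
  rw [cf_sum]
  have : ∀ τ : Perm (Fin 4), cf (if Des τ ⊆ partialSums q211 then elt τ (1 : F) else 0) σ =
      if τ = σ then (if σ 0 < σ 1 then 1 else 0) else 0 := by
    intro τ
    by_cases h : τ = σ
    · subst h
      rw [if_pos rfl]
      by_cases h2 : τ 0 < τ 1
      · rw [if_pos ((des_iff τ).mpr h2), if_pos h2, cf_elt, if_pos rfl]
      · rw [if_neg (fun h3 => h2 ((des_iff τ).mp h3)), if_neg h2, cf_zero]
    · rw [if_neg h]
      split_ifs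
      · rw [cf_elt, if_neg h]
      · rw [cf_zero]
  rw [Finset.sum_congr rfl (fun τ _ => this τ)]
  rw [Finset.sum_ite_eq' Finset.univ σ]
  simp

lemma coeff_Xi (σ : Perm (Fin 4)) : cf (Xi F q211) σ = red F (chi σ) := by
  rw [coeff_Xi_aux]
  unfold chi
  split_ifs
  · rw [map_one]
  · rw [map_zero]

lemma coeff_single_Xi (g h : Perm (Fin 4)) (t : F) :
    cf (elt g t * Xi F q211) h = t * red F (chi (g⁻¹ * h)) := by
  rw [cf_elt_mul, coeff_Xi]

/-- the underlying element of the group algebra. -/
def val (x : X F q211) : GA F (Perm (Fin 4)) := Subtype.val (p := fun z => z ∈ idealX F q211) x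

omit [CharP F 2] in
lemma val_add (x y : X F q211) : val F (x + y) = val F x + val F y := rfl
omit [CharP F 2] in
lemma val_zero : val F (0 : X F q211) = 0 := rfl
omit [CharP F 2] in
lemma val_smul (r : GA F (Perm (Fin 4))) (x : X F q211) : val F (r • x) = r * val F x := rfl
omit [CharP F 2] in
lemma val_inj {x y : X F q211} (h : val F x = val F y) : x = y := Subtype.ext h
omit [CharP F 2] in
lemma val_sum {ι : Type} (s : Finset ι) (f : ι → X F q211) :
    val F (∑ i ∈ s, f i) = ∑ i ∈ s, val F (f i) := by
  classical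
  induction s using Finset.induction_on with
  | empty => simp [val_zero]
  | insert a s ha ih => rw [Finset.sum_insert ha, Finset.sum_insert ha, val_add, ih]

/-- identity map -/
def toGA {F : Type u} [Field F] {G : Type} [Group G] (x : MonoidAlgebra F G) : GA F G := x

omit [CharP F 2] in
/-- A linear property which is checked on the translates of `Ξ` holds on the whole ideal. -/
lemma ideal_induction (P : GA F (Perm (Fin 4)) → Prop) (h0 : P 0)
    (hadd : ∀ x y, P x → P y → P (x + y))
    (hs : ∀ (g : Perm (Fin 4)) (t : F), P (elt g t * Xi F q211)) :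
    ∀ x : X F q211, P (val F x) := by
  rintro ⟨x, hx⟩
  obtain ⟨y, rfl⟩ := Submodule.mem_span_singleton.mp hx
  have key : ∀ y : MonoidAlgebra F (Perm (Fin 4)), P (toGA y * Xi F q211) := by
    intro y
    induction y using MonoidAlgebra.induction_linear with
    | zero =>
      have : toGA (0 : MonoidAlgebra F (Perm (Fin 4))) * Xi F q211 = 0 :=
        zero_mul (Xi F q211)
      rw [this]; exact h0
    | add y z hy hz =>
      have : toGA (y + z) * Xi F q211 = toGA y * Xi F q211 + toGA z * Xi F q211 :=
        add_mul (toGA y) (toGA z) (Xi F q211)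
      rw [this]
      exact hadd _ _ hy hz
    | single g t => exact hs g t
  exact key y

def ga : Perm (Fin 4) := swap 0 1
def gb : Perm (Fin 4) := swap 2 3
def gc : Perm (Fin 4) := swap 0 2 * swap 1 3

/-- the generator of the ideal. -/
noncomputable def u : X F q211 :=
  (⟨Xi F q211, Ideal.subset_span rfl⟩ : {z // z ∈ idealX F q211})

omit [CharP F 2] in
lemma val_u : val F (u F) = Xi F q211 := rfl

omit [CharP F 2] in
lemma coe_smul_X (g : Perm (Fin 4)) (x : X F q211) (h : Perm (Fin 4)) :
    cf (val F (act F g x)) h = cf (val F x) (g⁻¹ * h) := by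
  unfold act
  rw [val_smul, cf_elt_mul, one_mul]

set_option maxRecDepth 100000 in
lemma fin1 : ∀ k : Perm (Fin 4), chi k + chi (k * ga) + chi (k * gc) + chi (k * (gb * gc)) = 0 := by
  decide +kernel

set_option maxRecDepth 100000 in
lemma fin2 : ∀ k : Perm (Fin 4), chi (k * ga) = chi (k * (ga * gb)) := by
  decide +kernel

set_option maxRecDepth 100000 in
lemma fin3 : ∀ k : Perm (Fin 4),
    chi k + chi (ga⁻¹ * k) + chi (gb⁻¹ * k) + chi ((ga * gb)⁻¹ * k) = 0 := by
  decide +kernel

lemma prop1 (x : X F q211) : ∀ k : Perm (Fin 4),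
    cf (val F x) k + cf (val F x) (k * ga) + cf (val F x) (k * gc) +
      cf (val F x) (k * (gb * gc)) = 0 := by
  refine ideal_induction F (fun x => ∀ k : Perm (Fin 4),
    cf x k + cf x (k * ga) + cf x (k * gc) + cf x (k * (gb * gc)) = 0) ?_ ?_ ?_ x
  · intro k; simp [cf_zero]
  · intro x y hx hy k
    simp only [cf_add]
    linear_combination hx k + hy k
  · intro g t k
    simp only [coeff_single_Xi, ← mul_assoc]
    have h := congrArg (red F) (fin1 (g⁻¹ * k))
    simp only [map_add, map_zero, ← mul_assoc] at h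
    linear_combination t * h

lemma prop2 (x : X F q211) : ∀ k : Perm (Fin 4),
    cf (val F x) (k * ga) = cf (val F x) (k * (ga * gb)) := by
  refine ideal_induction F (fun x => ∀ k : Perm (Fin 4),
    cf x (k * ga) = cf x (k * (ga * gb))) ?_ ?_ ?_ x
  · intro k; simp [cf_zero]
  · intro x y hx hy k
    simp only [cf_add]
    linear_combination hx k + hy k
  · intro g t k
    simp only [coeff_single_Xi, ← mul_assoc]
    have h := congrArg (red F) (fin2 (g⁻¹ * k))
    simp only [← mul_assoc] at h
    rw [h]

lemma not_hasQ : ¬ HasQ F ga gb (X F q211) := by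
  intro hQ
  have h2 : ∀ z : F, z + z = 0 := fun z => CharTwo.add_self_eq_zero z
  obtain ⟨k₁, k₂, k₃, hk, e1, e2, e3⟩ := hQ (u F) (by
    apply val_inj
    apply cf_ext
    intro h
    simp only [val_add, cf_add, coe_smul_X, val_u, coeff_Xi, val_zero, cf_zero]
    have := congrArg (red F) (fin3 h)
    simpa only [map_add, map_zero] using this)
  -- the functional `c x = x(1) + x(ga)`
  have c1 : cf (val F k₁) 1 + cf (val F k₁) ga = 0 := by
    have := coe_smul_X F ga k₁ 1
    rw [e1] at this
    have hga : ga⁻¹ * 1 = ga := by decide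
    rw [hga] at this
    rw [this, h2]
  have c2 : cf (val F k₂) 1 + cf (val F k₂) ga = 0 := by
    have h := prop1 F k₂ 1
    have := coe_smul_X F gb k₂ gc
    rw [e2] at this
    have hgb : gb⁻¹ * gc = gb * gc := by decide
    rw [hgb] at this
    simp only [one_mul] at h
    rw [this] at h
    linear_combination h - h2 (cf (val F k₂) (gb * gc))
  have c3 : cf (val F k₃) 1 + cf (val F k₃) ga = 0 := by
    have h := prop2 F k₃ 1
    simp only [one_mul] at h
    have := coe_smul_X F (ga * gb) k₃ 1
    rw [e3] at this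
    have hgab : (ga * gb)⁻¹ * 1 = ga * gb := by decide
    rw [hgab] at this
    rw [h, this, h2]
  have c0 : cf (Xi F q211) 1 + cf (Xi F q211) ga = 1 := by
    rw [coeff_Xi, coeff_Xi, ← map_add]
    have : chi 1 + chi ga = 1 := by decide
    rw [this, map_one]
  have hu : Xi F q211 = val F k₁ + val F k₂ + val F k₃ := by
    have := congrArg (val F) hk
    rw [val_u, val_add, val_add] at this
    exact this
  rw [hu] at c0
  simp only [cf_add] at c0
  have : (1 : F) = 0 := by linear_combination c1 + c2 + c3 - c0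
  exact one_ne_zero this

/-- The twelve permutations whose sum annihilates `X^{(2,1,1)}`. -/
def inR (k : Perm (Fin 4)) : Bool :=
  decide ((k 0, k 1, k 2) ∈ ([(0,1,2),(0,1,3),(1,2,3),(1,3,2),(2,0,1),(2,0,3),(2,1,3),(2,3,0),
    (3,0,1),(3,0,2),(3,1,2),(3,2,0)] : List (Fin 4 × Fin 4 × Fin 4)))

set_option maxRecDepth 100000 in
lemma fin4 : ∀ (g : Perm (Fin 4)) (i j : Fin 4), i ≠ j →
    (∑ k : Perm (Fin 4), if inR k = true then
      (if g⁻¹ (k⁻¹ i) < g⁻¹ (k⁻¹ j) then (1 : ZMod 2) else 0) else 0) = 0 := by
  decide +kernel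

set_option maxRecDepth 100000 in
lemma fin5 : ∃ h : Perm (Fin 4),
    (∑ k : Perm (Fin 4), if inR k = true then chi (k * h) else 0) = 1 := by
  decide +kernel

lemma ann (x : X F q211) :
    ∑ k ∈ Finset.univ.filter (fun k => inR k = true), act F k x = 0 := by
  apply val_inj
  apply cf_ext
  intro h
  rw [val_sum, cf_sum]
  simp only [coe_smul_X]
  rw [val_zero, cf_zero]
  revert h
  refine ideal_induction F (fun x => ∀ h : Perm (Fin 4),
    ∑ k ∈ Finset.univ.filter (fun k => inR k = true), cf x (k⁻¹ * h) = 0) ?_ ?_ ?_ x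
  · intro h; simp [cf_zero]
  · intro x y hx hy h
    simp only [cf_add, Finset.sum_add_distrib]
    rw [hx h, hy h, add_zero]
  · intro g t h
    simp only [coeff_single_Xi]
    rw [← Finset.mul_sum, ← map_sum]
    have := fin4 g (h 0) (h 1) (fun hh => by simpa using h.injective hh)
    rw [← Finset.sum_filter] at this
    have h3 : ∑ k ∈ Finset.univ.filter (fun k => inR k = true), chi (g⁻¹ * (k⁻¹ * h)) = 0 := by
      rw [← this]
      rfl
    rw [h3, map_zero, mul_zero]

lemma not_ann :
    ∑ k ∈ Finset.univ.filter (fun k => inR k = true), act F k⁻¹ (u F) ≠ 0 := by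
  intro h0
  obtain ⟨h, hh⟩ := fin5
  have h1 := congrArg (fun x : X F q211 => cf (val F x) h) h0
  simp only [val_sum, cf_sum, coe_smul_X, val_zero, cf_zero, val_u, coeff_Xi, inv_inv] at h1
  rw [← map_sum, Finset.sum_filter, hh, map_one] at h1
  exact one_ne_zero h1

lemma not_selfDual : ¬ IsSelfDual F (Perm (Fin 4)) (X F q211) := by
  rintro ⟨T, hT⟩
  have hzl : ∀ y, T.B 0 y = 0 := fun y => by
    have := T.add_left 0 0 y
    rw [add_zero] at this
    linear_combination -this
  have hzr : ∀ x, T.B x 0 = 0 := fun x => by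
    have := T.add_right x 0 0
    rw [add_zero] at this
    linear_combination -this
  have hsl : ∀ (s : Finset (Perm (Fin 4))) (f : Perm (Fin 4) → X F q211) (y : X F q211),
      T.B (∑ k ∈ s, f k) y = ∑ k ∈ s, T.B (f k) y := by
    intro s f y
    induction s using Finset.induction_on with
    | empty => rw [Finset.sum_empty, Finset.sum_empty, hzl]
    | insert a s ha ih => rw [Finset.sum_insert ha, Finset.sum_insert ha, T.add_left, ih]
  have hsr : ∀ (s : Finset (Perm (Fin 4))) (f : Perm (Fin 4) → X F q211) (x : X F q211),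
      T.B x (∑ k ∈ s, f k) = ∑ k ∈ s, T.B x (f k) := by
    intro s f x
    induction s using Finset.induction_on with
    | empty => rw [Finset.sum_empty, Finset.sum_empty, hzr]
    | insert a s ha ih => rw [Finset.sum_insert ha, Finset.sum_insert ha, T.add_right, ih]
  apply not_ann F
  apply hT
  intro y
  rw [hsl]
  simp only [T.equivariant, inv_inv]
  rw [← hsr, ann, hzr]

end example_module

lemma isTrivialSource_hasQ {F : Type u} [Field F] [CharP F 2] {G : Type} [Group G] {a b : G}
    (haa : a * a = 1) (hbb : b * b = 1) (hab : a * b = b * a) {M : Type u} [AddCommGroup M]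
    [Module (GA F G) M] (h : IsTrivialSource F G M) : HasQ F a b M := by
  obtain ⟨Ω, _, _, i, p, hpi⟩ := h
  exact (HasQ.perm haa hbb hab).retract i p hpi

lemma isYoung_hasQ {F : Type u} [Field F] [CharP F 2] {n : ℕ} {a b : Equiv.Perm (Fin n)}
    (haa : a * a = 1) (hbb : b * b = 1) (hab : a * b = b * a) {μ : Composition n} {Y : Type u}
    [AddCommGroup Y] [Module (GA F (Equiv.Perm (Fin n))) Y] (h : IsYoung F μ Y) :
    HasQ F a b Y := by
  obtain ⟨_, _, i, p, hpi, _⟩ := h
  exact (HasQ.perm haa hbb hab).retract i p hpi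

/-- **Main theorem.**  Let `F` be any field of characteristic `2` (for instance an infinite one).
For `n = 4` and `q = (2,1,1)` the module `X^q_F` is not self-dual, it is not a direct summand of a
permutation module (it is not a trivial source module), and it is not isomorphic to a direct sum of
Young modules. -/
theorem result (F : Type u) [Field F] [CharP F 2] :
    ¬ IsSelfDual F (Equiv.Perm (Fin 4)) (X F q211) ∧
    ¬ IsTrivialSource F (Equiv.Perm (Fin 4)) (X F q211) ∧
    ¬ IsSumOfYoung F 4 (X F q211) := by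
  have haa : ga * ga = 1 := by decide
  have hbb : gb * gb = 1 := by decide
  have hab : ga * gb = gb * ga := by decide
  refine ⟨not_selfDual F, fun h => not_hasQ F (isTrivialSource_hasQ haa hbb hab h), ?_⟩
  rintro ⟨k, μ, Y, _, _, hY, ⟨e⟩⟩
  apply not_hasQ F
  exact (HasQ.pi (fun i => isYoung_hasQ haa hbb hab (hY i))).retract e.toLinearMap
    e.symm.toLinearMap (fun m => by simp)

end Pool.Agent.Results.MP_45e6b1_al.NotSelfDual
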